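import Mathlib

set_option autoImplicit false

namespace Pool.Agent.Q199.Asq

open scoped BoundedContinuousFunction

/-- A normed space is almost square: for every nonempty finite set of unit vectors `x` and every
`ε > 0` there is a unit vector `y` with `‖x + y‖ ≤ 1 + ε` for all these `x`. -/
def IsASQ (X : Type*) [NormedAddCommGroup X] : Prop :=
  ∀ s : Finset X, s.Nonempty → (∀ x ∈ s, ‖x‖ = 1) → ∀ ε : ℝ, 0 < ε →
    ∃ y : X, ‖y‖ = 1 ∧ ∀ x ∈ s, ‖x + y‖ ≤ 1 + ε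

variable (𝕜 : Type) [RCLike 𝕜] (X : Type*) [NormedAddCommGroup X] [NormedSpace 𝕜 X]

/-- Bounded continuous scalar functions on the closed unit ball of the dual of `X`, with the
supremum norm. -/
def FunB : Type _ := (Metric.closedBall (0 : X →L[𝕜] 𝕜) 1) →ᵇ 𝕜

noncomputable instance : NormedAddCommGroup (FunB 𝕜 X) :=
  inferInstanceAs (NormedAddCommGroup ((Metric.closedBall (0 : X →L[𝕜] 𝕜) 1) →ᵇ 𝕜))

noncomputable instance : NormedSpace 𝕜 (FunB 𝕜 X) :=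
  inferInstanceAs (NormedSpace 𝕜 ((Metric.closedBall (0 : X →L[𝕜] 𝕜) 1) →ᵇ 𝕜))

variable {X}

/-- The symmetric tensor `x ⊗ ⋯ ⊗ x` (`N` factors) as the function `φ ↦ φ(x) ^ N` on the unit
ball of the dual. -/
noncomputable def symPow (N : ℕ) (x : X) : FunB 𝕜 X :=
  BoundedContinuousFunction.ofNormedAddCommGroup
    (fun φ : Metric.closedBall (0 : X →L[𝕜] 𝕜) 1 => (φ : X →L[𝕜] 𝕜) x ^ N)
    (by fun_prop) (‖x‖ ^ N) (by
      intro φ
      rw [norm_pow]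
      refine pow_le_pow_left₀ (norm_nonneg _) ?_ N
      have h1 : ‖(φ : X →L[𝕜] 𝕜)‖ ≤ 1 := mem_closedBall_zero_iff.1 φ.2
      calc ‖(φ : X →L[𝕜] 𝕜) x‖ ≤ ‖(φ : X →L[𝕜] 𝕜)‖ * ‖x‖ := ContinuousLinearMap.le_opNorm _ _
        _ ≤ 1 * ‖x‖ := mul_le_mul_of_nonneg_right h1 (norm_nonneg _)
        _ = ‖x‖ := one_mul _)

variable (X) in
/-- The `N`-fold symmetric injective tensor product of `X`: the closure of the linear span of the
tensors `x ⊗ ⋯ ⊗ x`, with `‖u‖` the supremum over `‖φ‖ ≤ 1` of `|⟨φ ⊗ ⋯ ⊗ φ, u⟩|`. -/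
noncomputable def SymInj (N : ℕ) : Submodule 𝕜 (FunB 𝕜 X) :=
  (Submodule.span 𝕜 (Set.range (symPow 𝕜 N : X → FunB 𝕜 X))).topologicalClosure

end Pool.Agent.Q199.Asq
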