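import Mathlib
import Pool.Agent.Q199.Asq.Defs

set_option autoImplicit false

namespace Pool.Agent.Q199.Asq

variable {𝕜 : Type} [RCLike 𝕜] {X : Type*} [NormedAddCommGroup X] [NormedSpace 𝕜 X]

/-- a unimodular number turning `z` into `|z|` -/
lemma exists_unimodular (z : 𝕜) : ∃ c : 𝕜, ‖c‖ = 1 ∧ c * z = (‖z‖ : 𝕜) := by
  by_cases hz : z = 0
  · exact ⟨1, by simp, by simp [hz]⟩
  · refine ⟨(‖z‖ : 𝕜) / z, ?_, ?_⟩
    · rw [norm_div, RCLike.norm_ofReal, abs_norm, div_self (by simpa using hz)]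
    · rw [div_mul_cancel₀ _ hz]

/-- Almost squareness for the functionals on a finite-dimensional subspace. -/
lemma exists_almost_disjoint (hX : IsASQ X) (E : Submodule 𝕜 X) [FiniteDimensional 𝕜 E]
    (hne : ∃ x : X, ‖x‖ = 1) {δ : ℝ} (hδ : 0 < δ) :
    ∃ y : X, ‖y‖ = 1 ∧ ∀ φ : X →L[𝕜] 𝕜, ‖φ‖ ≤ 1 → ∀ x ∈ E, ‖x‖ ≤ 1 → ‖φ x‖ + ‖φ y‖ ≤ 1 + 2 * δ := by
  classical
  have hproper : ProperSpace E := FiniteDimensional.proper_rclike 𝕜 E
  obtain ⟨t, ht, htf, htc⟩ := (isCompact_sphere (0 : E) 1).finite_cover_balls hδ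
  obtain ⟨x₀, hx₀⟩ := hne
  let s : Finset X := insert x₀ (htf.toFinset.image (fun e : E => (e : X)))
  have hs1 : ∀ x ∈ s, ‖x‖ = 1 := by
    intro x hx
    rw [Finset.mem_insert] at hx
    rcases hx with rfl | hx
    · exact hx₀
    · obtain ⟨e, he, rfl⟩ := Finset.mem_image.1 hx
      have := ht (htf.mem_toFinset.1 he)
      simpa using this
  obtain ⟨y, hy1, hy⟩ := hX s (Finset.insert_nonempty _ _) hs1 δ hδ
  refine ⟨y, hy1, ?_⟩
  -- unit vectors
  have hunit : ∀ φ : X →L[𝕜] 𝕜, ‖φ‖ ≤ 1 → ∀ x ∈ E, ‖x‖ = 1 → ‖φ x‖ + ‖φ y‖ ≤ 1 + 2 * δ := by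
    intro φ hφ x hx hx1
    obtain ⟨a, ha, hax⟩ := exists_unimodular (φ x)
    obtain ⟨b, hb, hby⟩ := exists_unimodular (φ y)
    have hb0 : b ≠ 0 := by intro h; rw [h, norm_zero] at hb; exact zero_ne_one hb
    let e : E := (b⁻¹ * a) • ⟨x, hx⟩
    have he : e ∈ Metric.sphere (0 : E) 1 := by
      rw [mem_sphere_zero_iff_norm, norm_smul, norm_mul, norm_inv, ha, hb]
      simpa using hx1
    obtain ⟨z, hz, hez⟩ := Set.mem_iUnion₂.1 (htc he)
    have hzs : (z : X) ∈ s := by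
      refine Finset.mem_insert_of_mem (Finset.mem_image.2 ⟨z, htf.mem_toFinset.2 hz, rfl⟩)
    have h1 : ‖(e : X) + y‖ ≤ 1 + 2 * δ := by
      have h2 : ‖(e : X) - (z : X)‖ < δ := by
        have := Metric.mem_ball.1 hez
        rwa [dist_eq_norm] at this
      calc ‖(e : X) + y‖ = ‖((e : X) - z) + ((z : X) + y)‖ := by congr 1; abel
        _ ≤ ‖(e : X) - z‖ + ‖(z : X) + y‖ := norm_add_le _ _
        _ ≤ δ + (1 + δ) := add_le_add h2.le (hy _ hzs)
        _ = 1 + 2 * δ := by ring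
    have h3 : φ ((e : X) + y) = b⁻¹ * ((‖φ x‖ : 𝕜) + (‖φ y‖ : 𝕜)) := by
      have he' : (e : X) = (b⁻¹ * a) • x := rfl
      rw [he', map_add, map_smul, smul_eq_mul, ← hax, ← hby]
      field_simp
    have h4 : ‖φ ((e : X) + y)‖ = ‖φ x‖ + ‖φ y‖ := by
      rw [h3, norm_mul, norm_inv, hb, inv_one, one_mul, ← RCLike.ofReal_add, RCLike.norm_ofReal,
        abs_of_nonneg (by positivity)]
    rw [← h4]
    calc ‖φ ((e : X) + y)‖ ≤ ‖φ‖ * ‖(e : X) + y‖ := φ.le_opNorm _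
      _ ≤ 1 * ‖(e : X) + y‖ := mul_le_mul_of_nonneg_right hφ (norm_nonneg _)
      _ ≤ 1 + 2 * δ := by rw [one_mul]; exact h1
  intro φ hφ x hx hx1
  by_cases hx0 : x = 0
  · rw [hx0, map_zero, norm_zero, zero_add]
    calc ‖φ y‖ ≤ ‖φ‖ * ‖y‖ := φ.le_opNorm _
      _ ≤ 1 := by rw [hy1, mul_one]; exact hφ
      _ ≤ 1 + 2 * δ := by linarith
  · have hxn : 0 < ‖x‖ := norm_pos_iff.2 hx0
    have h1 := hunit φ hφ (((‖x‖⁻¹ : ℝ) : 𝕜) • x) (E.smul_mem _ hx) (by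
      rw [norm_smul, RCLike.norm_ofReal, abs_of_nonneg (by positivity), inv_mul_cancel₀ hxn.ne'])
    rw [map_smul, norm_smul, RCLike.norm_ofReal, abs_of_nonneg (by positivity)] at h1
    have h2 : ‖φ x‖ ≤ ‖x‖⁻¹ * ‖φ x‖ := by
      have : 1 ≤ ‖x‖⁻¹ := (one_le_inv₀ hxn).2 hx1
      nlinarith [norm_nonneg (φ x)]
    linarith

lemma pow_add_pow_le {a b : ℝ} (ha : 0 ≤ a) (hb : 0 ≤ b) {N : ℕ} (hN : 1 ≤ N) :
    a ^ N + b ^ N ≤ (a + b) ^ N := by
  obtain ⟨n, rfl⟩ : ∃ n, N = n + 1 := ⟨N - 1, by omega⟩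
  have h1 : a ^ n ≤ (a + b) ^ n := pow_le_pow_left₀ ha (by linarith) n
  have h2 : b ^ n ≤ (a + b) ^ n := pow_le_pow_left₀ hb (by linarith) n
  calc a ^ (n + 1) + b ^ (n + 1) = a ^ n * a + b ^ n * b := by ring
    _ ≤ (a + b) ^ n * a + (a + b) ^ n * b := by gcongr
    _ = (a + b) ^ (n + 1) := by ring

/-- The general form: `V` is any normed space containing the symmetric tensors `τ x` with the
symmetric injective norm, with dense span. -/
theorem asq_general {V : Type*} [NormedAddCommGroup V] [NormedSpace 𝕜 V] {N : ℕ} (hN : 1 ≤ N)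
    (τ : X → V)
    (hτ : ∀ (c : X →₀ 𝕜) (C : ℝ), 0 ≤ C → (‖c.sum (fun x a => a • τ x)‖ ≤ C ↔
      ∀ φ : X →L[𝕜] 𝕜, ‖φ‖ ≤ 1 → ‖c.sum (fun x a => a * φ x ^ N)‖ ≤ C))
    (hd : ∀ v : V, v ∈ closure (Submodule.span 𝕜 (Set.range τ) : Set V)) (hX : IsASQ X) :
    IsASQ V := by
  classical
  intro s hsne hs ε hε
  -- the space `X` has unit vectors
  have hne : ∃ x : X, ‖x‖ = 1 := by
    by_contra hcon
    push Not at hcon
    have hX0 : ∀ x : X, x = 0 := by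
      intro x
      by_contra hx
      have hxn : 0 < ‖x‖ := norm_pos_iff.2 hx
      apply hcon (((‖x‖⁻¹ : ℝ) : 𝕜) • x)
      rw [norm_smul, RCLike.norm_ofReal, abs_of_nonneg (by positivity), inv_mul_cancel₀ hxn.ne']
    have hτ0 : ∀ x, τ x = 0 := by
      intro x
      have h1 := (hτ (Finsupp.single x 1) 0 le_rfl).2 (by
        intro φ _
        rw [Finsupp.sum_single_index (by simp), hX0 x, map_zero, zero_pow (by omega)]
        simp)
      rw [Finsupp.sum_single_index (by simp), one_smul] at h1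
      exact norm_le_zero_iff.1 h1
    have hspan : (Submodule.span 𝕜 (Set.range τ)) = ⊥ := by
      rw [Submodule.span_eq_bot]
      rintro _ ⟨x, rfl⟩
      exact hτ0 x
    obtain ⟨v, hv⟩ := hsne
    have h1 := hd v
    rw [hspan] at h1
    have h2 : v = 0 := by simpa using h1
    have h3 := hs v hv
    rw [h2, norm_zero] at h3
    exact zero_ne_one h3
  -- the small parameter
  obtain ⟨δ, hδ0, hδ⟩ : ∃ δ : ℝ, 0 < δ ∧ δ + (1 + δ) * (1 + 2 * δ) ^ N ≤ 1 + ε := by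
    have hc : ContinuousAt (fun δ : ℝ => δ + (1 + δ) * (1 + 2 * δ) ^ N) 0 := by fun_prop
    have h1 := hc.eventually (gt_mem_nhds (show (0 : ℝ) + (1 + 0) * (1 + 2 * 0) ^ N < 1 + ε by
      simp; exact hε))
    obtain ⟨r, hr, hr'⟩ := Metric.eventually_nhds_iff.1 h1
    refine ⟨r / 2, by positivity, le_of_lt (hr' ?_)⟩
    rw [Real.dist_eq, sub_zero, abs_of_pos (by positivity)]
    linarith
  -- approximations
  have happ : ∀ v : V, ∃ c : X →₀ 𝕜, ‖v - c.sum (fun x a => a • τ x)‖ < δ := by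
    intro v
    obtain ⟨w, hw, hvw⟩ := Metric.mem_closure_iff.1 (hd v) δ hδ0
    obtain ⟨c, rfl⟩ := Finsupp.mem_span_range_iff_exists_finsupp.1 hw
    exact ⟨c, by rwa [dist_eq_norm] at hvw⟩
  choose c hc using happ
  let S : Finset X := s.biUnion (fun v => (c v).support)
  let E : Submodule 𝕜 X := Submodule.span 𝕜 (S : Set X)
  have hEfd : FiniteDimensional 𝕜 E := FiniteDimensional.span_finset 𝕜 S
  obtain ⟨y, hy1, hy⟩ := exists_almost_disjoint hX E hne hδ0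
  have hτy : ‖τ y‖ = 1 := by
    have hsum : (Finsupp.single y (1 : 𝕜)).sum (fun x a => a • τ x) = τ y := by
      rw [Finsupp.sum_single_index (by simp), one_smul]
    have hev : ∀ φ : X →L[𝕜] 𝕜, (Finsupp.single y (1 : 𝕜)).sum (fun x a => a * φ x ^ N) =
        φ y ^ N := by
      intro φ
      rw [Finsupp.sum_single_index (by simp), one_mul]
    refine le_antisymm ?_ ?_
    · rw [← hsum]
      refine (hτ _ 1 zero_le_one).2 fun φ hφ => ?_
      rw [hev, norm_pow]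
      refine pow_le_one₀ (norm_nonneg _) ?_
      calc ‖φ y‖ ≤ ‖φ‖ * ‖y‖ := φ.le_opNorm _
        _ ≤ 1 := by rw [hy1, mul_one]; exact hφ
    · have hy0 : ‖y‖ ≠ 0 := by rw [hy1]; exact one_ne_zero
      obtain ⟨φ, hφ, hφy⟩ := exists_dual_vector 𝕜 y hy0
      have h1 := (hτ (Finsupp.single y 1) ‖τ y‖ (norm_nonneg _)).1 (by rw [hsum]) φ hφ.le
      rw [hev, hφy, hy1] at h1
      simpa using h1
  refine ⟨τ y, hτy, fun v hv => ?_⟩
  -- the estimate
  have hsum2 : (c v + Finsupp.single y 1).sum (fun x a => a • τ x) =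
      (c v).sum (fun x a => a • τ x) + τ y := by
    rw [Finsupp.sum_add_index' (by simp) (by intro a b1 b2; rw [add_smul]),
      Finsupp.sum_single_index (by simp), one_smul]
  have hPn : ‖(c v).sum (fun x a => a • τ x)‖ ≤ 1 + δ := by
    have h1 : (c v).sum (fun x a => a • τ x) = v - (v - (c v).sum (fun x a => a • τ x)) := by abel
    rw [h1]
    refine (norm_sub_le _ _).trans ?_
    rw [hs v hv]
    linarith [hc v]
  have hP := (hτ (c v) (1 + δ) (by linarith)).1 hPn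
  have hmain : ‖(c v).sum (fun x a => a • τ x) + τ y‖ ≤ (1 + δ) * (1 + 2 * δ) ^ N := by
    rw [← hsum2]
    refine (hτ _ _ (by positivity)).2 fun φ hφ => ?_
    rw [Finsupp.sum_add_index' (by simp) (by intro a b1 b2; rw [add_mul]),
      Finsupp.sum_single_index (by simp), one_mul]
    -- restrict to `E` and extend
    let φE : E →L[𝕜] 𝕜 := φ.comp E.subtypeL
    obtain ⟨ψ, hψ1, hψ2⟩ := exists_extension_norm_eq E φE
    have hφy : ‖φ y‖ ≤ 1 := by
      calc ‖φ y‖ ≤ ‖φ‖ * ‖y‖ := φ.le_opNorm _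
        _ ≤ 1 := by rw [hy1, mul_one]; exact hφ
    have hφEn : ‖φE‖ ≤ 1 + 2 * δ - ‖φ y‖ := by
      refine ContinuousLinearMap.opNorm_le_of_unit_norm (by linarith) fun x hx => ?_
      have := hy φ hφ (x : X) x.2 (le_of_eq hx)
      have h2 : φE x = φ (x : X) := rfl
      rw [h2]; linarith
    have hsame : (c v).sum (fun x a => a * φ x ^ N) = (c v).sum (fun x a => a * ψ x ^ N) := by
      refine Finsupp.sum_congr fun x hx => ?_
      have hxE : x ∈ E := Submodule.subset_span (by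
        exact_mod_cast Finset.mem_biUnion.2 ⟨v, hv, hx⟩)
      have := hψ1 ⟨x, hxE⟩
      have h2 : φE ⟨x, hxE⟩ = φ x := rfl
      rw [h2] at this
      rw [← this]
    have hψb : ‖(c v).sum (fun x a => a * ψ x ^ N)‖ ≤ (1 + δ) * ‖ψ‖ ^ N := by
      by_cases h0 : ψ = 0
      · rw [h0]
        have : (c v).sum (fun x a => a * (0 : X →L[𝕜] 𝕜) x ^ N) = 0 := by
          refine Finset.sum_eq_zero fun x _ => ?_
          simp [zero_pow (show N ≠ 0 by omega)]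
        rw [this]
        simp [zero_pow (show N ≠ 0 by omega)]
      · have hpos : 0 < ‖ψ‖ := norm_pos_iff.2 h0
        have h1 := hP (((‖ψ‖⁻¹ : ℝ) : 𝕜) • ψ) (by
          rw [norm_smul, RCLike.norm_ofReal, abs_of_nonneg (by positivity),
            inv_mul_cancel₀ hpos.ne'])
        have h2 : (c v).sum (fun x a => a * (((‖ψ‖⁻¹ : ℝ) : 𝕜) • ψ) x ^ N) =
            (((‖ψ‖⁻¹ : ℝ) : 𝕜)) ^ N * (c v).sum (fun x a => a * ψ x ^ N) := by
          rw [Finsupp.mul_sum]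
          refine Finsupp.sum_congr fun x _ => ?_
          rw [smul_apply, smul_eq_mul, mul_pow]
          ring
        rw [h2, norm_mul, norm_pow, RCLike.norm_ofReal, abs_of_nonneg (by positivity)] at h1
        have h3 : ‖ψ‖ ^ N * (‖ψ‖⁻¹ ^ N * ‖(c v).sum (fun x a => a * ψ x ^ N)‖) =
            ‖(c v).sum (fun x a => a * ψ x ^ N)‖ := by
          rw [← mul_assoc, ← mul_pow, mul_inv_cancel₀ hpos.ne', one_pow, one_mul]
        rw [← h3, mul_comm (1 + δ)]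
        exact mul_le_mul_of_nonneg_left h1 (by positivity)
    calc ‖(c v).sum (fun x a => a * φ x ^ N) + φ y ^ N‖
        ≤ ‖(c v).sum (fun x a => a * φ x ^ N)‖ + ‖φ y ^ N‖ := norm_add_le _ _
      _ ≤ (1 + δ) * ‖ψ‖ ^ N + ‖φ y‖ ^ N := by
          rw [hsame, norm_pow]
          linarith
      _ ≤ (1 + δ) * (‖ψ‖ ^ N + ‖φ y‖ ^ N) := by
          have : 0 ≤ δ * ‖φ y‖ ^ N := by positivity
          linarith
      _ ≤ (1 + δ) * (‖ψ‖ + ‖φ y‖) ^ N := by
          gcongr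
          exact pow_add_pow_le (norm_nonneg _) (norm_nonneg _) hN
      _ ≤ (1 + δ) * (1 + 2 * δ) ^ N := by
          refine mul_le_mul_of_nonneg_left (pow_le_pow_left₀ (by positivity) ?_ N) (by linarith)
          rw [hψ2]; linarith
  calc ‖v + τ y‖ = ‖(v - (c v).sum (fun x a => a • τ x)) +
        ((c v).sum (fun x a => a • τ x) + τ y)‖ := by congr 1; abel
    _ ≤ ‖v - (c v).sum (fun x a => a • τ x)‖ + ‖(c v).sum (fun x a => a • τ x) + τ y‖ :=
        norm_add_le _ _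
    _ ≤ δ + (1 + δ) * (1 + 2 * δ) ^ N := add_le_add (hc v).le hmain
    _ ≤ 1 + ε := hδ

/-- evaluation of a member of `FunB` -/
noncomputable def ev (φ : Metric.closedBall (0 : X →L[𝕜] 𝕜) 1) : FunB 𝕜 X →ₗ[𝕜] 𝕜 where
  toFun := fun f =>
    (show BoundedContinuousFunction (Metric.closedBall (0 : X →L[𝕜] 𝕜) 1) 𝕜 from f) φ
  map_add' := fun _ _ => rfl
  map_smul' := fun _ _ => rfl

lemma norm_le_iff (f : FunB 𝕜 X) {C : ℝ} (hC : 0 ≤ C) : ‖f‖ ≤ C ↔ ∀ φ, ‖ev φ f‖ ≤ C :=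
  BoundedContinuousFunction.norm_le
    (f := (show BoundedContinuousFunction (Metric.closedBall (0 : X →L[𝕜] 𝕜) 1) 𝕜 from f)) hC

lemma ev_symPow (φ : Metric.closedBall (0 : X →L[𝕜] 𝕜) 1) (N : ℕ) (x : X) :
    ev φ (symPow 𝕜 N x) = (φ : X →L[𝕜] 𝕜) x ^ N := rfl

end Pool.Agent.Q199.Asq
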